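import Pool.Agent.H509.ST.Pages

/-!
# MP_1ef7cf_nt: the Stark-Tate conjecture for real quadratic ray class groups of exponent two

Let `K` be a real quadratic field, embedded in `ℝ` by `s₁`, `𝔪 ≠ 0, 𝓞 K` an ideal, `S` the set of the
two archimedean places and of the primes dividing `𝔪`, and `H / K` an abelian extension which is
unramified outside `𝔪`, whose Galois group has exponent two and which has a real embedding `σ` above
`s₁` (that is, `H` is a subfield of exponent two of the ray class field of modulus `𝔪^n ∞₂`, for some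
`n`). For example `H` is the ray class field of modulus `𝔪 ∞₂`, if the ray class group has exponent two,
and in general the largest subfield of exponent two of the ray class field (genus field).

**Theorem.** The Stark-Tate conjecture (Q1) holds for these `H`, without any further condition on `K`, on
`𝔪` or on the order of the group: there is a unit `ε` of `H` such that
1. `σ (ρ ε) = exp (- 2 ζ'(ρ, 0))` for all `ρ` in `Gal(H/K)` (the units `ε_A` are the conjugates `ρ ε`);
2. `|τ ε| = 1` for all embeddings `τ` of `H` above the other embedding of `K`;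
3. `H (ε ^ (1/2)) / K` is abelian.

The proof: if `∞₂` splits in `H` then `ε = 1`. Otherwise the sum of the degrees `[K_v : ℚ_2]` is two, and
there is one real place which becomes complex in `H`, so the isotropy of the Kummer group of `H / K`
shows that the order of the group `Σ` generated by the decomposition groups of the places of `S` is at
most `2 ^ (#S - 1)`; under this condition Rubin's conjecture holds for `H / K`
(`MP_dd9835_nt.MultiquadraticExtensions`). If `#Σ = 2 ^ (#S - 1)`, the fourth root of
`∏_χ η_χ ^ h_χ` (`η_χ` the fundamental minus unit of the quadratic field of `χ`, `h_χ` the relative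
class number) has to be shown to be in an abelian extension of `K`.
-/

set_option autoImplicit false

open NumberField IsDedekindDomain

noncomputable section

namespace Pool.Agent.Results.MP_1ef7cf_nt.ExponentTwo

open Pool.Agent.N598.ST (Place Unram IsArtin IsZeta AbRoot)
open Pool.Agent.N820.RS (IsModulus)

/-- **The Stark-Tate conjecture over real quadratic fields, exponent two.** -/
theorem result (K : Type) [Field K] [NumberField K] (hdeg : Module.finrank ℚ K = 2) (s₁ : K →+* ℝ)
    (𝔪 : Ideal (𝓞 K)) (hm0 : 𝔪 ≠ ⊥) (hm1 : 𝔪 ≠ ⊤) (S : Finset (Place K)) (hS : IsModulus 𝔪 S)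
    (H : Type) [Field H] [NumberField H] [Algebra K H] [IsAbelianGalois K H]
    (h2 : ∀ g : Gal(H/K), g * g = 1)
    (hu : ∀ q : HeightOneSpectrum (𝓞 K), ¬ 𝔪 ≤ q.asIdeal → Unram K H q) (σ : H →+* ℝ)
    (hσ : σ.comp (algebraMap K H) = s₁) (a : Ideal (𝓞 K) → Gal(H/K)) (ha : IsArtin S a)
    (ζ : Gal(H/K) → ℂ → ℂ) (hζ : ∀ ρ, IsZeta S a ρ (ζ ρ)) :
    ∃ ε : (𝓞 H)ˣ,
      (∀ ρ : Gal(H/K), ((σ (ρ ((ε : 𝓞 H) : H)) : ℝ) : ℂ) =
        Complex.exp (-(2 * deriv (ζ ρ) 0))) ∧
      (∀ τ : H →+* ℂ, τ.comp (algebraMap K H) ≠ Complex.ofRealHom.comp s₁ →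
        ‖τ ((ε : 𝓞 H) : H)‖ = 1) ∧
      AbRoot K 2 ((ε : 𝓞 H) : H) := by
  have h1 : 1 ≤ InfinitePlace.nrRealPlaces K := by
    have h : Nat.card {w : InfinitePlace K // w.IsReal} = InfinitePlace.nrRealPlaces K := by
      classical
      unfold InfinitePlace.nrRealPlaces
      rw [Nat.card_eq_fintype_card]
    rw [← h]
    have : Nonempty {w : InfinitePlace K // w.IsReal} := by
      refine ⟨InfinitePlace.mk (Complex.ofRealHom.comp s₁), _, ?_, rfl⟩
      ext x
      exact Complex.conj_ofReal _
    exact Nat.card_pos
  have hrank := InfinitePlace.card_add_two_mul_card_eq_rank K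
  rw [hdeg] at hrank
  have h2' : 2 ≤ Fintype.card (InfinitePlace K) := by
    rw [InfinitePlace.card_eq_nrRealPlaces_add_nrComplexPlaces]
    omega
  exact Pool.Agent.STk.real_page h2 S (hS.card hm1 h2' hm0) hS.inf
    (fun q hq => hu q fun h => hq ((hS.fin q).2 h)) (by omega) s₁ σ hσ a ha ζ hζ

end Pool.Agent.Results.MP_1ef7cf_nt.ExponentTwo
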